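import Pool.Agent.MP_bb6eef_co.H88.Lower

set_option autoImplicit false

open Filter Topology Pool.Agent.MP_bb6eef_co.H88

/-- For every fixed `t ≥ 2`, the maximum local `t`-dimension of an `n`-element poset is
asymptotic to `n / (4 log₂ n)`. -/
theorem Pool.Agent.Results.MP_bb6eef_co.Asymp.result (t : ℕ) (ht : 2 ≤ t) :
    Tendsto (fun n : ℕ => (maxLdim t n : ℝ) * Real.logb 2 n / n) atTop (𝓝 (1 / 4)) :=
  asymp t ht
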