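import Pool.Agent.MP_bb6eef_co.H88.Lower

set_option autoImplicit false

open Filter Topology Pool.Agent.MP_bb6eef_co.H88

/-- For every fixed `t ≥ 3`, `M_t(n) / M_2(n) → 1`. -/
theorem Pool.Agent.Results.MP_bb6eef_co.Ratio.result (t : ℕ) (ht : 3 ≤ t) :
    Tendsto (fun n : ℕ => (maxLdim t n : ℝ) / (maxLdim 2 n : ℝ)) atTop (𝓝 1) := by
  have h := (asymp t (by omega)).div (asymp 2 le_rfl) (by norm_num)
  rw [div_self (by norm_num)] at h
  refine h.congr' ?_
  filter_upwards [eventually_ge_atTop 2] with n hn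
  have hnR : (2 : ℝ) ≤ n := by exact_mod_cast hn
  have h1 : 0 < Real.logb 2 n := Real.logb_pos one_lt_two (by linarith)
  simp only [Pi.div_apply]
  rw [div_div_div_cancel_right₀ (by positivity), mul_div_mul_right _ _ h1.ne']
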